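import Mathlib

namespace Pool.Agent.Results.MP_321bb7_mp.NegTrace

open Matrix

abbrev SU2 := Matrix.specialUnitaryGroup (Fin 2) ℂ

noncomputable def th (x : ℝ) : ℝ := Int.fract x * (1 - Int.fract x)

def S2 (g : Matrix (Fin 2) (Fin 2) ℂ) : Matrix (Fin 3) (Fin 3) ℂ :=
  !![g 0 0 ^ 2, g 0 0 * g 0 1, g 0 1 ^ 2;
    2 * g 0 0 * g 1 0, g 0 0 * g 1 1 + g 0 1 * g 1 0, 2 * g 0 1 * g 1 1;
    g 1 0 ^ 2, g 1 0 * g 1 1, g 1 1 ^ 2]

def S3 (g : Matrix (Fin 2) (Fin 2) ℂ) : Matrix (Fin 4) (Fin 4) ℂ :=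
  !![g 0 0 ^ 3, g 0 0 ^ 2 * g 0 1, g 0 0 * g 0 1 ^ 2, g 0 1 ^ 3;
    3 * g 0 0 ^ 2 * g 1 0, g 0 0 ^ 2 * g 1 1 + 2 * g 0 0 * g 1 0 * g 0 1,
      2 * g 0 0 * g 0 1 * g 1 1 + g 1 0 * g 0 1 ^ 2, 3 * g 0 1 ^ 2 * g 1 1;
    3 * g 0 0 * g 1 0 ^ 2, 2 * g 0 0 * g 1 0 * g 1 1 + g 1 0 ^ 2 * g 0 1,
      g 0 0 * g 1 1 ^ 2 + 2 * g 1 0 * g 0 1 * g 1 1, 3 * g 0 1 * g 1 1 ^ 2;
    g 1 0 ^ 3, g 1 0 ^ 2 * g 1 1, g 1 0 * g 1 1 ^ 2, g 1 1 ^ 3]

noncomputable def R2 : SU2 →* Matrix (Fin 3) (Fin 3) ℂ where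
  toFun g := S2 g.1
  map_one' := by
    ext i j; fin_cases i <;> fin_cases j <;> simp [S2]
  map_mul' g h := by
    ext i j
    fin_cases i <;> fin_cases j <;>
      simp [S2, Matrix.mul_apply, Fin.sum_univ_two, Fin.sum_univ_three] <;> ring

noncomputable def R3 : SU2 →* Matrix (Fin 4) (Fin 4) ℂ where
  toFun g := S3 g.1
  map_one' := by
    ext i j; fin_cases i <;> fin_cases j <;> simp [S3]
  map_mul' g h := by
    ext i j
    fin_cases i <;> fin_cases j <;>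
      simp [S3, Matrix.mul_apply, Fin.sum_univ_two, Fin.sum_univ_four] <;> ring

lemma cont (i j : Fin 2) : Continuous fun g : SU2 => g.1 i j :=
  (continuous_apply j).comp ((continuous_apply i).comp continuous_subtype_val)

lemma R2_cont : Continuous R2 := by
  have h1 := cont 0 0
  have h2 := cont 0 1
  have h3 := cont 1 0
  have h4 := cont 1 1
  refine continuous_matrix fun i j => ?_
  fin_cases i <;> fin_cases j <;> simp [R2, S2] <;> continuity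

lemma R3_cont : Continuous R3 := by
  have h1 := cont 0 0
  have h2 := cont 0 1
  have h3 := cont 1 0
  have h4 := cont 1 1
  refine continuous_matrix fun i j => ?_
  fin_cases i <;> fin_cases j <;> simp [R3, S3] <;> continuity

lemma nz (g : SU2) (z : ℂ) (h : g.1 = diagonal ![z, z⁻¹]) : z ≠ 0 := by
  rintro rfl
  have := (Matrix.mem_specialUnitaryGroup_iff.1 g.2).2
  rw [h] at this
  simp at this

lemma th_neg (x : ℝ) : th (-x) = th x := by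
  unfold th
  by_cases h : Int.fract x = 0
  · rw [Int.fract_neg_eq_zero.2 h, h]
  · rw [Int.fract_neg h]; ring

lemma th_small (x : ℝ) (h0 : 0 ≤ x) (h1 : x < 1) : th x = x * (1 - x) := by
  rw [th, Int.fract_eq_self.2 ⟨h0, h1⟩]

def dm : Fin 3 → ℕ := ![3, 3, 4]

noncomputable def RR : ∀ j : Fin 3, SU2 →* Matrix (Fin (dm j)) (Fin (dm j)) ℂ
  | 0 => R2
  | 1 => R2
  | 2 => R3

def ww : ∀ j : Fin 3, Fin (dm j) → ℤ
  | 0 => ![2, 0, -2]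
  | 1 => ![2, 0, -2]
  | 2 => ![3, 1, -1, -3]

lemma sums (F : Fin 3 → ℝ) (f : ℤ → ℝ) : ∑ j, F j * ∑ i, f (ww j i)
    = (F 0 + F 1) * (f 2 + f 0 + f (-2)) + F 2 * (f 3 + f 1 + f (-1) + f (-3)) := by
  rw [Fin.sum_univ_three]
  change F 0 * ∑ i : Fin 3, f (![2, 0, -2] i) + F 1 * ∑ i : Fin 3, f (![2, 0, -2] i)
    + F 2 * ∑ i : Fin 4, f (![3, 1, -1, -3] i) = _
  simp [Fin.sum_univ_three, Fin.sum_univ_four]
  ring

theorem result : ∃ (m : ℕ) (d : Fin m → ℕ)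
    (R : ∀ j, SU2 →* Matrix (Fin (d j)) (Fin (d j)) ℂ) (w : ∀ j, Fin (d j) → ℤ) (r : Fin m → ℝ),
    (∀ j, Continuous (R j)) ∧
    (∀ j (g : SU2) (z : ℂ), g.1 = Matrix.diagonal ![z, z⁻¹] →
      R j g = Matrix.diagonal fun i => z ^ w j i) ∧
    (∀ j, 3 ≤ d j ∧ ∀ i, w j i = d j - 1 - 2 * (i : ℕ)) ∧
    (∀ j, 0 < r j ∧ r j < 2) ∧
    ∑ j, ∑ i, w j i ^ 3 = 0 ∧
    (∑ j, (r j - 1) * ∑ i, (w j i : ℝ) ^ 2) + (2 ^ 2 + (-2) ^ 2) = 0 ∧
    (∀ j, ∃ σ : Equiv.Perm (Fin (d j)), ∀ i, σ (σ i) = i ∧ w j (σ i) = -w j i) ∧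
    (∃ x : ℝ, 1 / 2 * (∑ j, (1 - r j) * ∑ i, th (w j i * x)) - th (2 * x) < 0) ∧
    3 + ∑ j, (r j - 1) * (d j : ℝ) < 0 := by
  have hL : ∀ x : ℝ, 1 / 2 * (∑ j, (1 - (![1 / 4, 1 / 4, 6 / 5] : Fin 3 → ℝ) j)
      * ∑ i, th (ww j i * x)) - th (2 * x)
      = 1 / 2 * th (2 * x) - 1 / 5 * (th (3 * x) + th x) := by
    intro x
    rw [sums _ (fun k => th (k * x))]
    have h0 : th 0 = 0 := by simp [th]
    simp [th_neg, h0]
    ring
  refine ⟨3, dm, RR, ww, ![1 / 4, 1 / 4, 6 / 5], fun j => ?_, fun j g z h => ?_, by decide,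
    fun j => ?_, by decide, ?_, fun j => ⟨Fin.revPerm, ?_⟩, ⟨1 / 2, ?_⟩, ?_⟩
  · fin_cases j
    exacts [R2_cont, R2_cont, R3_cont]
  · have hz := nz g z h
    have a2 : R2 g = diagonal fun i => z ^ (![2, 0, -2] : Fin 3 → ℤ) i := by
      ext a b
      fin_cases a <;> fin_cases b <;> simp [R2, S2, h, hz, zpow_ofNat]
    have a3 : R3 g = diagonal fun i => z ^ (![3, 1, -1, -3] : Fin 4 → ℤ) i := by
      ext a b
      fin_cases a <;> fin_cases b <;> simp [R3, S3, h, zpow_ofNat] <;> field_simp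
    fin_cases j
    exacts [a2, a2, a3]
  · fin_cases j <;> norm_num
  · rw [sums _ (fun k => (k : ℝ) ^ 2)]
    simp only [Matrix.cons_val]
    norm_num
  · revert j; decide
  · rw [hL]
    have h1 : Int.fract ((3 : ℝ) * (1 / 2)) = 1 / 2 := by
      rw [Int.fract_eq_iff]; refine ⟨by norm_num, by norm_num, 1, by norm_num⟩
    rw [th_small (1 / 2) (by norm_num) (by norm_num)]
    simp only [th, h1]
    norm_num
  · simp [Fin.sum_univ_three, dm]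
    norm_num

end Pool.Agent.Results.MP_321bb7_mp.NegTrace
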